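import Pool.Agent.H994R2.JL.PDefs
import Pool.Agent.H568R2.Collapse

/-!
# A depth-3 predictor: eliminate the terms that are violated by a negative example

Gates `(t, i)` (OR): the example `i` does not contradict the term `t`; gates `t` (AND): no example
contradicts `t`, and the fresh point satisfies `t`; output (OR): some such term exists.
-/

namespace Pool.Agent.U571.PS

open Finset DomAC0 DNFPrediction

/-- The leaves: the literals of the examples, and the labels. -/
abbrev LV (m N : ℕ) := ((Fin m × Bool) × Fin (N + 1)) ⊕ Fin N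

variable {m N τ L : ℕ}

/-- number of the gate `(t, i)` -/
def bI (t : Fin τ) (i : Fin N) : Fin (τ * N + τ + 1) :=
  Fin.castAdd 1 (Fin.castAdd τ (finProdFinEquiv (t, i)))

/-- number of the gate `t` -/
def pI (t : Fin τ) : Fin (τ * N + τ + 1) := Fin.castAdd 1 (Fin.natAdd (τ * N) t)

/-- number of the output gate -/
def oI : Fin (τ * N + τ + 1) := Fin.natAdd (τ * N + τ) 0

/-- predecessors of the gate `(t, i)` -/
def predB (ι : LV m N → Fin L) (tm : Fin τ → Finset (Fin m × Bool)) (p : Fin τ × Fin N) :
    Finset (Fin L ⊕ Fin (τ * N + τ + 1)) :=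
  insert (Sum.inl (ι (Sum.inr p.2)))
    ((tm p.1).image fun l => Sum.inl (ι (Sum.inl ((l.1, !l.2), p.2.castSucc))))

/-- predecessors of the gate `t` -/
def predP (ι : LV m N → Fin L) (tm : Fin τ → Finset (Fin m × Bool)) (t : Fin τ) :
    Finset (Fin L ⊕ Fin (τ * N + τ + 1)) :=
  ((univ : Finset (Fin N)).image fun i => Sum.inr (bI t i)) ∪
    ((tm t).image fun l => Sum.inl (ι (Sum.inl (l, Fin.last N))))

/-- predecessors of the output gate -/
def predO : Finset (Fin L ⊕ Fin (τ * N + τ + 1)) :=
  (univ : Finset (Fin τ)).image fun t => Sum.inr (pI t)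

/-- all predecessors -/
def prd (ι : LV m N → Fin L) (tm : Fin τ → Finset (Fin m × Bool)) :
    Fin (τ * N + τ + 1) → Finset (Fin L ⊕ Fin (τ * N + τ + 1)) :=
  Fin.addCases (Fin.addCases (fun b => predB ι tm (finProdFinEquiv.symm b))
    (fun t => predP ι tm t)) (fun _ => predO)

/-- the kinds of the gates -/
def knd : Fin (τ * N + τ + 1) → GateKind :=
  Fin.addCases (Fin.addCases (fun _ => GateKind.or) (fun _ => GateKind.and))
    (fun _ => GateKind.or)

lemma prd_b (ι : LV m N → Fin L) (tm : Fin τ → Finset (Fin m × Bool)) (t : Fin τ) (i : Fin N) :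
    prd ι tm (bI t i) = predB ι tm (t, i) := by
  unfold prd bI
  rw [Fin.addCases_left, Fin.addCases_left, Equiv.symm_apply_apply]

lemma prd_p (ι : LV m N → Fin L) (tm : Fin τ → Finset (Fin m × Bool)) (t : Fin τ) :
    prd (N := N) ι tm (pI t) = predP ι tm t := by
  simp [prd, pI]

lemma prd_o (ι : LV m N → Fin L) (tm : Fin τ → Finset (Fin m × Bool)) :
    prd (N := N) ι tm oI = predO := by
  simp only [prd, oI, Fin.addCases_right]

lemma knd_b (t : Fin τ) (i : Fin N) : knd (bI t i) = GateKind.or := by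
  simp [knd, bI]

lemma knd_p (t : Fin τ) : knd (pI t : Fin (τ * N + τ + 1)) = GateKind.and := by
  simp [knd, pI]

lemma knd_o : knd (oI : Fin (τ * N + τ + 1)) = GateKind.or := by
  simp only [knd, oI, Fin.addCases_right]

lemma gate_cases {motive : Fin (τ * N + τ + 1) → Prop} (hb : ∀ t i, motive (bI t i))
    (hp : ∀ t, motive (pI t)) (ho : motive oI) : ∀ g, motive g := by
  intro g
  refine Fin.addCases (fun g1 => ?_) (fun g2 => ?_) g
  · refine Fin.addCases (fun b => ?_) (fun t => ?_) g1
    · have := hb (finProdFinEquiv.symm b).1 (finProdFinEquiv.symm b).2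
      unfold bI at this
      rwa [Prod.mk.eta, Equiv.apply_symm_apply] at this
    · exact hp t
  · have : g2 = 0 := Subsingleton.elim _ _
    rw [this]
    exact ho

lemma bI_val (t : Fin τ) (i : Fin N) : (bI t i).val < τ * N :=
  (finProdFinEquiv (t, i)).isLt

lemma pI_val (t : Fin τ) : (pI t : Fin (τ * N + τ + 1)).val = τ * N + t.val := by
  simp [pI]

lemma oI_val : (oI : Fin (τ * N + τ + 1)).val = τ * N + τ := by
  simp [oI]

/-- the circuit -/
abbrev circ (ι : LV m N → Fin L) (tm : Fin τ → Finset (Fin m × Bool)) : Circuit (Fin L) where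
  size := τ * N + τ + 1
  kind := knd
  preds := prd ι tm
  acyclic := by
    intro g h
    revert g
    refine gate_cases ?_ ?_ ?_
    · intro t i hh
      rw [prd_b] at hh
      simp [predB] at hh
    · intro t hh
      rw [prd_p] at hh
      simp only [predP, mem_union, mem_image, mem_univ, true_and, Sum.inr.injEq, reduceCtorEq,
        and_false, exists_false, or_false] at hh
      obtain ⟨i, rfl⟩ := hh
      rw [Fin.lt_def, pI_val]
      exact lt_of_lt_of_le (bI_val t i) (Nat.le_add_right _ _)
    · intro hh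
      rw [prd_o] at hh
      simp only [predO, mem_image, mem_univ, true_and, Sum.inr.injEq] at hh
      obtain ⟨t, rfl⟩ := hh
      rw [Fin.lt_def, pI_val, oI_val]
      exact Nat.add_lt_add_left t.isLt _
  unary := by
    intro g
    revert g
    refine gate_cases ?_ ?_ ?_
    · intro t i h
      rw [knd_b] at h
      cases h
    · intro t h
      rw [knd_p] at h
      cases h
    · intro h
      rw [knd_o] at h
      cases h
  output := Sum.inr oI

lemma val_b (ι : LV m N → Fin L) (tm : Fin τ → Finset (Fin m × Bool)) (x : Fin L → Bool)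
    (t : Fin τ) (i : Fin N) :
    (circ ι tm).nodeVal x (Sum.inr (bI t i)) = true ↔
      x (ι (Sum.inr i)) = true ∨
        ∃ l ∈ tm t, x (ι (Sum.inl ((l.1, !l.2), i.castSucc))) = true := by
  show (circ ι tm).gateVal x (bI t i) = true ↔ _
  rw [H568R2.gateVal_eq, H568R2.gfun]
  have hk : (circ ι tm).kind (bI t i) = GateKind.or := knd_b t i
  have hp : (circ ι tm).preds (bI t i) = predB ι tm (t, i) := prd_b ι tm t i
  rw [hk, hp]
  simp only [decide_eq_true_eq, Finset.mem_toList]
  constructor
  · rintro ⟨v, hv, h⟩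
    rw [predB, mem_insert, mem_image] at hv
    rcases hv with rfl | ⟨l, hl, rfl⟩
    · exact Or.inl h
    · exact Or.inr ⟨l, hl, h⟩
  · rintro (h | ⟨l, hl, h⟩)
    · exact ⟨Sum.inl (ι (Sum.inr i)), mem_insert_self _ _, h⟩
    · exact ⟨Sum.inl (ι (Sum.inl ((l.1, !l.2), i.castSucc))),
        mem_insert_of_mem (mem_image.2 ⟨l, hl, rfl⟩), h⟩

lemma val_p (ι : LV m N → Fin L) (tm : Fin τ → Finset (Fin m × Bool)) (x : Fin L → Bool)
    (t : Fin τ) :
    (circ ι tm).nodeVal x (Sum.inr (pI t)) = true ↔
      (∀ i : Fin N, (circ ι tm).nodeVal x (Sum.inr (bI t i)) = true) ∧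
        ∀ l ∈ tm t, x (ι (Sum.inl (l, Fin.last N))) = true := by
  show (circ ι tm).gateVal x (pI t) = true ↔ _
  rw [H568R2.gateVal_eq, H568R2.gfun]
  have hk : (circ ι tm).kind (pI t) = GateKind.and := knd_p t
  have hp : (circ ι tm).preds (pI t) = predP ι tm t := prd_p ι tm t
  rw [hk, hp]
  simp only [decide_eq_true_eq, Finset.mem_toList]
  constructor
  · intro h
    refine ⟨fun i => h _ ?_, fun l hl => h (Sum.inl (ι (Sum.inl (l, Fin.last N)))) ?_⟩
    · rw [predP, mem_union]
      exact Or.inl (mem_image.2 ⟨i, mem_univ _, rfl⟩)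
    · rw [predP, mem_union]
      exact Or.inr (mem_image.2 ⟨l, hl, rfl⟩)
  · rintro ⟨h1, h2⟩ v hv
    rw [predP, mem_union, mem_image, mem_image] at hv
    rcases hv with ⟨i, -, rfl⟩ | ⟨l, hl, rfl⟩
    · exact h1 i
    · exact h2 l hl

lemma val_o (ι : LV m N → Fin L) (tm : Fin τ → Finset (Fin m × Bool)) (x : Fin L → Bool) :
    (circ ι tm).eval x = true ↔
      ∃ t : Fin τ, (circ ι tm).nodeVal x (Sum.inr (pI t)) = true := by
  show (circ ι tm).gateVal x oI = true ↔ _
  rw [H568R2.gateVal_eq, H568R2.gfun]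
  have hk : (circ ι tm).kind oI = GateKind.or := knd_o
  have hp : (circ ι tm).preds oI = predO := prd_o ι tm
  rw [hk, hp]
  simp only [decide_eq_true_eq, Finset.mem_toList]
  constructor
  · rintro ⟨v, hv, h⟩
    rw [predO, mem_image] at hv
    obtain ⟨t, -, rfl⟩ := hv
    exact ⟨t, h⟩
  · rintro ⟨t, h⟩
    exact ⟨Sum.inr (pI t), mem_image.2 ⟨t, mem_univ _, rfl⟩, h⟩

lemma depth_le_of {J : Type} (C : Circuit J) (g : Fin C.size) (d : ℕ)
    (h : ∀ v ∈ C.preds g, C.nodeDepth v ≤ d) : C.gateDepth g ≤ d + 1 := by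
  rw [Circuit.gateDepth]
  refine Nat.succ_le_succ (Finset.sup_le ?_)
  rintro ⟨v, hv⟩ -
  have := h v hv
  cases v with
  | inl j => exact Nat.zero_le _
  | inr k => exact this

lemma circ_depth (ι : LV m N → Fin L) (tm : Fin τ → Finset (Fin m × Bool)) :
    (circ ι tm).depth ≤ 3 := by
  show (circ ι tm).gateDepth oI ≤ 3
  refine depth_le_of _ _ 2 ?_
  intro v hv
  have hp : (circ ι tm).preds oI = predO := prd_o ι tm
  rw [hp, predO, mem_image] at hv
  obtain ⟨t, -, rfl⟩ := hv
  show (circ ι tm).gateDepth (pI t) ≤ 2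
  refine depth_le_of _ _ 1 ?_
  intro v hv
  have hp : (circ ι tm).preds (pI t) = predP ι tm t := prd_p ι tm t
  rw [hp, predP, mem_union, mem_image, mem_image] at hv
  rcases hv with ⟨i, -, rfl⟩ | ⟨l, hl, rfl⟩
  · show (circ ι tm).gateDepth (bI t i) ≤ 1
    refine depth_le_of _ _ 0 ?_
    intro v hv
    have hp : (circ ι tm).preds (bI t i) = predB ι tm (t, i) := prd_b ι tm t i
    rw [hp, predB, mem_insert, mem_image] at hv
    rcases hv with rfl | ⟨l, hl, rfl⟩
    · exact le_refl _
    · exact le_refl _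
  · exact Nat.zero_le _

/-- The predictor: all leaves are literals of the examples or labels. -/
noncomputable def predr (N : ℕ) (tm : Fin τ → Finset (Fin m × Bool)) : Predictor m N 0 where
  leaves := Fintype.card (LV m N)
  leaf e x y _ := match (Fintype.equivFin (LV m N)).symm e with
    | Sum.inl (l, i) => decide (x i l.1 = l.2)
    | Sum.inr i => y i
  reads e := match (Fintype.equivFin (LV m N)).symm e with
    | Sum.inl (l, _) => {l.1}
    | Sum.inr _ => ∅
  leaf_reads := by
    intro e x x' y u h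
    revert h
    generalize (Fintype.equivFin (LV m N)).symm e = v
    rcases v with ⟨l, i⟩ | i
    · intro h
      have := h i l.1 (mem_singleton_self _)
      simp only [this]
    · intro _
      rfl
  circuit := circ (Fintype.equivFin (LV m N)) tm

lemma predr_reads (N : ℕ) (tm : Fin τ → Finset (Fin m × Bool)) (e : Fin (predr N tm).leaves) :
    ((predr N tm).reads e).card ≤ 1 := by
  unfold predr
  simp only
  generalize (Fintype.equivFin (LV m N)).symm e = v
  rcases v with ⟨l, i⟩ | i
  · simp
  · simp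

lemma predr_nodes (N : ℕ) (tm : Fin τ → Finset (Fin m × Bool)) :
    (predr N tm).nodes = 2 * m * (N + 1) + N + (τ * N + τ + 1) := by
  unfold Predictor.nodes
  show Fintype.card (LV m N) + (τ * N + τ + 1) = _
  simp only [LV, Fintype.card_sum, Fintype.card_prod, Fintype.card_fin, Fintype.card_bool]
  ring

/-- The term `t` is satisfied by `x`. -/
def Sat (t : Finset (Fin m × Bool)) (x : Fin m → Bool) : Prop := ∀ l ∈ t, x l.1 = l.2

lemma predr_guess (N : ℕ) (tm : Fin τ → Finset (Fin m × Bool)) (x : Fin (N + 1) → Fin m → Bool)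
    (y : Fin N → Bool) (u : Fin 0 → Bool) :
    (predr N tm).guess x y u = true ↔
      ∃ t : Fin τ, (∀ i : Fin N, y i = true ∨ ¬ Sat (tm t) (x i.castSucc)) ∧
        Sat (tm t) (x (Fin.last N)) := by
  unfold Predictor.guess
  have h0 := val_o (Fintype.equivFin (LV m N)) tm (fun e => (predr N tm).leaf e x y u)
  refine h0.trans (exists_congr fun t => ?_)
  rw [val_p]
  refine and_congr (forall_congr' fun i => ?_) (forall₂_congr fun l _ => ?_)
  · rw [val_b]
    refine or_congr ?_ ?_
    · show (match (Fintype.equivFin (LV m N)).symm ((Fintype.equivFin (LV m N)) (Sum.inr i)) with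
        | Sum.inl (l, i) => decide (x i l.1 = l.2)
        | Sum.inr i => y i) = true ↔ _
      rw [Equiv.symm_apply_apply]
    · unfold Sat
      push Not
      refine exists_congr fun l => and_congr Iff.rfl ?_
      show (match (Fintype.equivFin (LV m N)).symm
          ((Fintype.equivFin (LV m N)) (Sum.inl ((l.1, !l.2), i.castSucc))) with
        | Sum.inl (l, i) => decide (x i l.1 = l.2)
        | Sum.inr i => y i) = true ↔ _
      rw [Equiv.symm_apply_apply]
      simp only [decide_eq_true_eq]
      cases x i.castSucc l.1 <;> cases l.2 <;> simp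
  · show (match (Fintype.equivFin (LV m N)).symm
        ((Fintype.equivFin (LV m N)) (Sum.inl (l, Fin.last N))) with
      | Sum.inl (l, i) => decide (x i l.1 = l.2)
      | Sum.inr i => y i) = true ↔ _
    rw [Equiv.symm_apply_apply]
    simp only [decide_eq_true_eq]

end Pool.Agent.U571.PS
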