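import Pool.Agent.U571.PS.Up
import Pool.Agent.H994R2.JL.Fin2
import Pool.Agent.H994R2.JL.AP
import Pool.Agent.H994R2.JL.CO
import Pool.Agent.H994R2.JL.ME
import Pool.Agent.H994R2.JL.UN
import Pool.Agent.H994R2.JL.LP
import Pool.Agent.H994R2.JL.BP
import Pool.Agent.H994R2.JL.NA
import Pool.Agent.H994R2.JL.NB
import Pool.Agent.H994R2.JL.NC
import Pool.Agent.H994R2.JL.PA
import Pool.Agent.H994R2.JL.DI

/-!
# The two bounds
-/

namespace Pool.Agent.U571.PS

open Finset DomAC0 DNFPrediction Pool.Agent.H994R2.JL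

open Classical in
/-- The parity of `k ≥ 1` variables has a DNF formula with `2 ^ (k - 1)` terms. -/
lemma parDNF_card' {m : ℕ} (T : Finset (Fin m)) (hT : 0 < T.card) :
    (parDNF T).card ≤ 2 ^ (T.card - 1) := by
  obtain ⟨a, ha⟩ := Finset.card_pos.1 hT
  unfold parDNF
  refine Finset.card_image_le.trans ?_
  have h1 : ((T.powerset).filter (fun S => Odd S.card)).card ≤ ((T.erase a).powerset).card := by
    apply Finset.card_le_card_of_injOn (fun S => S.erase a)
    · intro S hS
      rw [Finset.mem_coe, mem_filter, mem_powerset] at hS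
      rw [Finset.mem_coe, mem_powerset]
      exact Finset.erase_subset_erase a hS.1
    · intro S hS S' hS' h
      rw [Finset.mem_coe, mem_filter] at hS hS'
      have h : S.erase a = S'.erase a := h
      have hc : (S.erase a).card = (S'.erase a).card := by rw [h]
      have ho := hS.2
      have ho' := hS'.2
      by_cases h1 : a ∈ S
      · by_cases h2 : a ∈ S'
        · rw [← Finset.insert_erase h1, ← Finset.insert_erase h2, h]
        · exfalso
          rw [Finset.card_erase_of_mem h1, Finset.erase_eq_of_notMem h2] at hc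
          have : 0 < S.card := Finset.card_pos.2 ⟨a, h1⟩
          have h3 : S.card = S'.card + 1 := by omega
          rw [h3] at ho
          rw [Nat.odd_iff] at ho ho'
          omega
      · by_cases h2 : a ∈ S'
        · exfalso
          rw [Finset.card_erase_of_mem h2, Finset.erase_eq_of_notMem h1] at hc
          have : 0 < S'.card := Finset.card_pos.2 ⟨a, h2⟩
          have h3 : S'.card = S.card + 1 := by omega
          rw [h3] at ho'
          rw [Nat.odd_iff] at ho ho'
          omega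
        · rw [← Finset.erase_eq_of_notMem h1, ← Finset.erase_eq_of_notMem h2, h]
  refine h1.trans ?_
  rw [Finset.card_powerset, Finset.card_erase_of_mem ha]

theorem pred_bound (d k : ℕ) (hd : 1 ≤ d) (hk : 2 ≤ k) (η : ℝ) (hη : 0 < η) :
    ∃ M : ℕ, ∀ m, M ≤ m → ∀ (N R : ℕ) (P : Predictor m N R),
    P.circuit.depth ≤ d → (∀ e, (P.reads e).card ≤ (k - 1) / 2) → P.nodes ^ 5 ≤ m ^ k →
    ∃ T : Finset (Fin m), T.card = k ∧ P.success (parT T) ≤ 1 / 2 + η :=
  predictor_bound (stub_AP stub_CO stub_ME stub_U1 stub_U3 (stub_LP stub_BP stub_U2))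
    stub_NA stub_NB stub_NC stub_PA d k hd hk η hη

theorem lower : ∃ K : ℕ → ℕ, Filter.Tendsto K Filter.atTop Filter.atTop ∧
    ∀ m s : ℕ, 2 ≤ s → s ≤ K m → ∀ (N R : ℕ) (P : Predictor m N R),
      P.circuit.depth ≤ K m → (∀ e, (P.reads e).card ≤ Nat.log 2 s / 2) →
      P.nodes ^ 5 ≤ m ^ (Nat.log 2 s + 1) →
      ∃ F : DNF m, F.card ≤ s ∧ (∀ t ∈ F, t.card ≤ Nat.log 2 s + 1) ∧
        P.success F.eval ≤ 1 / 2 + 1 / K m := by
  classical
  have hex : ∀ d k : ℕ, ∃ M : ℕ, 1 ≤ d → 2 ≤ k → ∀ m, M ≤ m →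
      ∀ (N R : ℕ) (P : Predictor m N R),
      P.circuit.depth ≤ d → (∀ e, (P.reads e).card ≤ (k - 1) / 2) → P.nodes ^ 5 ≤ m ^ k →
      ∃ T : Finset (Fin m), T.card = k ∧ P.success (parT T) ≤ 1 / 2 + 1 / d := by
    intro d k
    by_cases hdk : 1 ≤ d ∧ 2 ≤ k
    · have hd : (0 : ℝ) < 1 / d := by
        have : (0 : ℝ) < d := by exact_mod_cast hdk.1
        positivity
      obtain ⟨M, hM⟩ := pred_bound d k hdk.1 hdk.2 (1 / d) hd
      exact ⟨M, fun _ _ => hM⟩
    · exact ⟨0, fun h1 h2 => absurd ⟨h1, h2⟩ hdk⟩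
  choose M hM using hex
  obtain ⟨k, hk1, hk2⟩ := stub_DI (fun n => (Finset.range (n + 2)).sup (fun j => M n j))
  refine ⟨fun m => if (Finset.range (k m + 2)).sup (fun j => M (k m) j) ≤ m then k m else 0,
    ?_, ?_⟩
  · refine hk1.congr' ?_
    filter_upwards [hk2] with m hm
    rw [if_pos hm]
  · intro m s hs hsK N R P hdep hreads hnodes
    beta_reduce at hsK hdep ⊢
    have hcond : (Finset.range (k m + 2)).sup (fun j => M (k m) j) ≤ m := by
      by_contra h
      rw [if_neg h] at hsK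
      omega
    rw [if_pos hcond] at hsK hdep ⊢
    have hlog : Nat.log 2 s < s := Nat.log_lt_self 2 (by omega)
    have hlog1 : 1 ≤ Nat.log 2 s := Nat.log_pos (by norm_num) hs
    have hMle : M (k m) (Nat.log 2 s + 1) ≤ m := by
      refine le_trans ?_ hcond
      apply Finset.le_sup (f := fun j => M (k m) j)
      rw [Finset.mem_range]
      omega
    obtain ⟨T, hT, hsucc⟩ := hM (k m) (Nat.log 2 s + 1) (by omega) (by omega) m hMle N R P
      hdep (fun e => by
        have := hreads e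
        simpa using this) hnodes
    refine ⟨parDNF T, ?_, ?_, ?_⟩
    · refine (parDNF_card' T (by omega)).trans ?_
      rw [hT]
      simpa using Nat.pow_log_le_self 2 (by omega : s ≠ 0)
    · intro t ht
      have := parDNF_width T t ht
      rwa [hT] at this
    · have he : (parDNF T).eval = parT T := funext (parDNF_eval T)
      rw [he]
      exact hsucc

theorem upper (m s h : ℕ) : ∃ (N : ℕ) (P : Predictor m N 0),
    P.circuit.depth ≤ 3 ∧ (∀ e, (P.reads e).card ≤ 1) ∧
    P.nodes ≤ 2 ^ (h + 2) * (2 * m + 1) ^ (2 * (Nat.log 2 s + h) + 1) ∧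
    ∀ F : DNF m, F.card ≤ s → 1 - 2 / 2 ^ h ≤ P.success F.eval := by
  classical
  set w := Nat.log 2 s + h with hw
  set τ := Fintype.card (Tm m w) with hτ
  set e := (Fintype.equivFin (Tm m w)).symm with he
  have hτB : τ ≤ (2 * m + 1) ^ w := card_Tm m w
  refine ⟨2 ^ h * τ, predr (2 ^ h * τ) (fun j => (e j).1), circ_depth _ _, predr_reads _ _,
    ?_, ?_⟩
  · rw [predr_nodes]
    set B := (2 * m + 1) ^ w with hB
    have hB1 : 1 ≤ B := Nat.one_le_pow _ _ (by omega)
    have hq : 1 ≤ 2 ^ h := Nat.one_le_two_pow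
    have h1 : (2 * m + 1) ^ (2 * w + 1) = B * B * (2 * m + 1) := by
      rw [pow_succ, two_mul w, pow_add]
    have h2 : 2 ^ (h + 2) = 4 * 2 ^ h := by rw [pow_add]; ring
    rw [h1, h2]
    generalize 2 ^ h = q at hq
    have hN : q * τ ≤ q * B := Nat.mul_le_mul_left _ hτB
    have h3 : τ * (q * τ) ≤ B * (q * B) := Nat.mul_le_mul hτB hN
    have h4 : 2 * m * (q * τ + 1) + q * τ + (τ * (q * τ) + τ + 1) ≤
        2 * m * (q * B + 1) + q * B + (B * (q * B) + B + 1) := by
      have h5 : 2 * m * (q * τ + 1) ≤ 2 * m * (q * B + 1) :=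
        Nat.mul_le_mul_left _ (by omega)
      omega
    refine h4.trans ?_
    have h6 : 1 ≤ q * B := Nat.one_le_iff_ne_zero.2 (by positivity)
    have h7 : q * B ≤ q * B * B := Nat.le_mul_of_pos_right _ (by omega)
    have h8 : B ≤ q * B * B := by
      calc B = 1 * B := (one_mul B).symm
        _ ≤ q * B * B := Nat.mul_le_mul_right _ h6
    have h9 : 2 * m * (q * B + 1) ≤ 2 * m * (2 * (q * B * B)) :=
      Nat.mul_le_mul_left _ (by omega)
    have h10 : B * (q * B) = q * B * B := by ring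
    have h11 : 4 * q * (B * B * (2 * m + 1)) = 2 * m * (2 * (q * B * B)) +
        (2 * m * (2 * (q * B * B)) + 4 * (q * B * B)) := by ring
    rw [h11, h10]
    omega
  · intro F hF
    have h1 := predr_success (2 ^ h * τ) w s F hF (fun j => (e j).1)
      (fun t ht => ⟨e.symm ⟨t, ht⟩, by simp⟩)
    refine le_trans ?_ h1
    have h2 : (s : ℝ) / 2 ^ (w + 1) ≤ 1 / 2 ^ h := by
      have h3 : s < 2 ^ (Nat.log 2 s + 1) := Nat.lt_pow_succ_log_self (by norm_num) s
      have h4 : (s : ℝ) ≤ 2 ^ (Nat.log 2 s + 1) := by exact_mod_cast h3.le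
      rw [div_le_div_iff₀ (by positivity) (by positivity), one_mul]
      calc (s : ℝ) * 2 ^ h ≤ 2 ^ (Nat.log 2 s + 1) * 2 ^ h :=
            mul_le_mul_of_nonneg_right h4 (by positivity)
        _ = 2 ^ (w + 1) := by rw [← pow_add, hw]; congr 1; ring
    have h5 : (τ : ℝ) / (((2 ^ h * τ : ℕ) : ℝ) + 1) ≤ 1 / 2 ^ h := by
      rw [div_le_div_iff₀ (by positivity) (by positivity)]
      push_cast
      nlinarith
    have h6 : (2 : ℝ) / 2 ^ h = 1 / 2 ^ h + 1 / 2 ^ h := by ring
    linarith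

end Pool.Agent.U571.PS
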