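import Pool.Agent.U571.PS.Circ

/-!
# The predictor works: upper bound
-/

namespace Pool.Agent.U571.PS

open Finset DomAC0 DNFPrediction

variable {m N τ : ℕ}

open Classical in
lemma card_sat (t : Finset (Fin m × Bool)) :
    (univ.filter (fun z : Fin m → Bool => Sat t z)).card * 2 ^ t.card ≤ 2 ^ m := by
  by_cases h : ∃ z0 : Fin m → Bool, Sat t z0
  · obtain ⟨z0, hz0⟩ := h
    set T : Finset (Fin m) := t.image Prod.fst with hT
    have hTc : T.card = t.card := by
      rw [hT]
      apply Finset.card_image_of_injOn
      intro a ha b hb hab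
      have h1 := hz0 a ha
      have h2 := hz0 b hb
      refine Prod.ext hab ?_
      rw [← h1, ← h2]
      exact congrArg z0 hab
    have hset : (univ.filter (fun z : Fin m → Bool => Sat t z)) =
        Fintype.piFinset (fun j => if j ∈ T then ({z0 j} : Finset Bool) else univ) := by
      ext z
      rw [mem_filter, Fintype.mem_piFinset]
      constructor
      · rintro ⟨-, hz⟩ j
        by_cases hj : j ∈ T
        · rw [if_pos hj, mem_singleton]
          rw [hT, mem_image] at hj
          obtain ⟨l, hl, rfl⟩ := hj
          rw [hz l hl, hz0 l hl]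
        · rw [if_neg hj]
          exact mem_univ _
      · intro hz
        refine ⟨mem_univ _, fun l hl => ?_⟩
        have := hz l.1
        rw [if_pos (by rw [hT]; exact mem_image_of_mem _ hl), mem_singleton] at this
        rw [this]
        exact hz0 l hl
    rw [hset, Fintype.card_piFinset]
    have h3 : ∀ j : Fin m, (if j ∈ T then ({z0 j} : Finset Bool) else univ).card =
        if j ∈ T then 1 else 2 := by
      intro j
      split_ifs
      · rw [card_singleton]
      · rw [card_univ, Fintype.card_bool]
    rw [Finset.prod_congr rfl (fun j _ => h3 j), Finset.prod_ite]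
    rw [Finset.prod_const_one, one_mul, Finset.prod_const, ← hTc, ← pow_add]
    apply le_of_eq
    congr 1
    have h4 := Finset.card_filter_add_card_filter_not (s := (univ : Finset (Fin m)))
      (fun j => j ∈ T)
    have h5 : (univ.filter (fun j => j ∈ T)) = T := by ext; simp
    rw [h5, card_univ, Fintype.card_fin] at h4
    omega
  · have : (univ.filter (fun z : Fin m → Bool => Sat t z)) = ∅ := by
      rw [Finset.filter_eq_empty_iff]
      intro z _ hz
      exact h ⟨z, hz⟩
    rw [this, card_empty, zero_mul]
    exact Nat.zero_le _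

open Classical in
lemma card_last {X : Type*} [Fintype X] (S : Finset X) :
    (univ.filter (fun x : Fin (N + 1) → X => x (Fin.last N) ∈ S)).card =
      S.card * Fintype.card X ^ N := by
  have hset : (univ.filter (fun x : Fin (N + 1) → X => x (Fin.last N) ∈ S)) =
      Fintype.piFinset (fun i => if i = Fin.last N then S else univ) := by
    ext x
    rw [mem_filter, Fintype.mem_piFinset]
    constructor
    · rintro ⟨-, h⟩ i
      by_cases hi : i = Fin.last N
      · rw [if_pos hi, hi]
        exact h
      · rw [if_neg hi]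
        exact mem_univ _
    · intro h
      refine ⟨mem_univ _, ?_⟩
      have := h (Fin.last N)
      rwa [if_pos rfl] at this
  rw [hset, Fintype.card_piFinset, Fin.prod_univ_castSucc, if_pos rfl, mul_comm]
  congr 1
  have : ∀ i : Fin N, (if i.castSucc = Fin.last N then S else univ).card = Fintype.card X := by
    intro i
    rw [if_neg (Fin.castSucc_lt_last i).ne, card_univ]
  rw [Finset.prod_congr rfl (fun i _ => this i), Finset.prod_const, card_univ, Fintype.card_fin]

open Classical in
lemma card_one {X : Type*} [Fintype X] (A : Finset X) :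
    (N + 1) * (univ.filter (fun x : Fin (N + 1) → X =>
      x (Fin.last N) ∈ A ∧ ∀ i : Fin N, x i.castSucc ∉ A)).card ≤ Fintype.card X ^ (N + 1) := by
  set E : Fin (N + 1) → Finset (Fin (N + 1) → X) := fun j =>
    univ.filter (fun x => x j ∈ A ∧ ∀ i, i ≠ j → x i ∉ A) with hE
  have h0 : (univ.filter (fun x : Fin (N + 1) → X =>
      x (Fin.last N) ∈ A ∧ ∀ i : Fin N, x i.castSucc ∉ A)) = E (Fin.last N) := by
    rw [hE]
    ext x
    simp only [mem_filter, mem_univ, true_and]
    refine and_congr Iff.rfl ?_
    constructor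
    · intro h i hi
      obtain ⟨i', rfl⟩ := Fin.eq_castSucc_of_ne_last hi
      exact h i'
    · intro h i
      exact h _ (Fin.castSucc_lt_last i).ne
  have h1 : ∀ j, (E j).card = (E (Fin.last N)).card := by
    intro j
    refine Finset.card_bij' (fun x _ => x ∘ Equiv.swap j (Fin.last N))
      (fun x _ => x ∘ Equiv.swap j (Fin.last N)) ?_ ?_ ?_ ?_
    · intro x hx
      rw [hE] at hx ⊢
      simp only [mem_filter, mem_univ, true_and, Function.comp] at hx ⊢
      refine ⟨?_, ?_⟩
      · rw [Equiv.swap_apply_right]
        exact hx.1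
      · intro i hi
        apply hx.2
        intro h
        apply hi
        have := congrArg (Equiv.swap j (Fin.last N)) h
        rw [Equiv.swap_apply_self, Equiv.swap_apply_left] at this
        exact this
    · intro x hx
      rw [hE] at hx ⊢
      simp only [mem_filter, mem_univ, true_and, Function.comp] at hx ⊢
      refine ⟨?_, ?_⟩
      · rw [Equiv.swap_apply_left]
        exact hx.1
      · intro i hi
        apply hx.2
        intro h
        apply hi
        have := congrArg (Equiv.swap j (Fin.last N)) h
        rw [Equiv.swap_apply_self, Equiv.swap_apply_right] at this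
        exact this
    · intro x _
      funext i
      simp [Function.comp]
    · intro x _
      funext i
      simp [Function.comp]
  have h2 : ((univ : Finset (Fin (N + 1))).biUnion E).card = ∑ j, (E j).card := by
    apply Finset.card_biUnion
    intro i _ j _ hij
    rw [Function.onFun, Finset.disjoint_left]
    intro x hx hy
    rw [hE] at hx hy
    simp only [mem_filter, mem_univ, true_and] at hx hy
    exact hy.2 i hij hx.1
  have h3 : ∑ j, (E j).card = (N + 1) * (E (Fin.last N)).card := by
    rw [Finset.sum_congr rfl (fun j _ => h1 j), Finset.sum_const, card_univ, Fintype.card_fin,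
      smul_eq_mul]
  rw [h0, ← h3, ← h2]
  refine (Finset.card_le_univ _).trans ?_
  rw [Fintype.card_fun, Fintype.card_fin]

/-- The terms with at most `w` literals. -/
abbrev Tm (m w : ℕ) := {t : Finset (Fin m × Bool) // t.card ≤ w}

/-- The number of terms with at most `w` literals. -/
lemma card_Tm (m w : ℕ) : Fintype.card (Tm m w) ≤ (2 * m + 1) ^ w := by
  classical
  -- every such term is the set of values of a function `Fin w → Option (literal)`
  have hcard : Fintype.card (Fin w → Option (Fin m × Bool)) = (2 * m + 1) ^ w := by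
    rw [Fintype.card_fun, Fintype.card_option, Fintype.card_prod, Fintype.card_fin,
      Fintype.card_bool, Fintype.card_fin, mul_comm m 2]
  rw [← hcard]
  have hex : ∀ t : Tm m w, ∃ f : Fin w → Option (Fin m × Bool),
      (univ.image f).eraseNone = t.1 := by
    intro t
    have hle : t.1.card ≤ w := t.2
    let e := t.1.equivFin
    refine ⟨fun i => if h : i.val < t.1.card then some (e.symm ⟨i.val, h⟩).1 else none, ?_⟩
    ext l
    rw [Finset.mem_eraseNone, mem_image]
    constructor
    · rintro ⟨i, -, hi⟩
      by_cases h : i.val < t.1.card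
      · rw [dif_pos h, Option.some.injEq] at hi
        rw [← hi]
        exact (e.symm ⟨i.val, h⟩).2
      · rw [dif_neg h] at hi
        cases hi
    · intro hl
      refine ⟨⟨(e ⟨l, hl⟩).val, lt_of_lt_of_le (e ⟨l, hl⟩).isLt hle⟩, mem_univ _, ?_⟩
      rw [dif_pos (e ⟨l, hl⟩).isLt]
      simp
  choose f hf using hex
  refine Fintype.card_le_of_injective f ?_
  intro a b hab
  apply Subtype.ext
  rw [← hf a, ← hf b, hab]

open Classical in
/-- Success of the predictor. -/
theorem predr_success (N w s : ℕ) (F : DNF m) (hF : F.card ≤ s)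
    (tm : Fin τ → Finset (Fin m × Bool)) (htm : ∀ t : Finset (Fin m × Bool), t.card ≤ w →
      ∃ j, tm j = t) :
    1 - (s : ℝ) / 2 ^ (w + 1) - (τ : ℝ) / (N + 1) ≤ (predr N tm).success F.eval := by
  have hcX : Fintype.card (Fin m → Bool) = 2 ^ m := by
    rw [Fintype.card_fun, Fintype.card_fin, Fintype.card_bool]
  have heval : ∀ z : (Fin m → Bool), F.eval z = true ↔ ∃ t ∈ F, Sat t z := by
    intro z
    unfold DNF.eval Sat
    rw [decide_eq_true_eq]
  -- the bad events
  set E1 : Finset (Fin (N + 1) → (Fin m → Bool)) := (F.filter (fun t => w < t.card)).biUnion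
    (fun t => univ.filter (fun x : Fin (N + 1) → (Fin m → Bool) =>
      x (Fin.last N) ∈ (univ.filter (fun z : (Fin m → Bool) => Sat t z)))) with hE1
  set A : Fin τ → Finset (Fin m → Bool) := fun j => univ.filter (fun z : (Fin m → Bool) => F.eval z = false ∧
    Sat (tm j) z) with hA
  set E2 : Finset (Fin (N + 1) → (Fin m → Bool)) := (univ : Finset (Fin τ)).biUnion
    (fun j => univ.filter (fun x : Fin (N + 1) → (Fin m → Bool) =>
      x (Fin.last N) ∈ A j ∧ ∀ i : Fin N, x i.castSucc ∉ A j)) with hE2
  set G : Finset ((Fin (N + 1) → (Fin m → Bool)) × (Fin 0 → Bool)) := univ.filter (fun p =>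
    (predr N tm).guess p.1 (fun i => F.eval (p.1 i.castSucc)) p.2 = F.eval (p.1 (Fin.last N)))
    with hG
  have hbad : (univ.filter (fun p : (Fin (N + 1) → (Fin m → Bool)) × (Fin 0 → Bool) =>
      ¬ ((predr N tm).guess p.1 (fun i => F.eval (p.1 i.castSucc)) p.2 =
        F.eval (p.1 (Fin.last N))))).card ≤ (E1 ∪ E2).card := by
    apply Finset.card_le_card_of_injOn Prod.fst
    · intro p hp
      rw [Finset.coe_filter, Set.mem_ofPred_eq] at hp
      have hne := hp.2
      rw [Finset.mem_coe, mem_union]
      by_cases hl : F.eval (p.1 (Fin.last N)) = true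
      · -- a long term is satisfied
        left
        rw [hl] at hne
        obtain ⟨t, htF, hts⟩ := (heval _).1 hl
        rw [hE1, mem_biUnion]
        refine ⟨t, ?_, ?_⟩
        · rw [mem_filter]
          refine ⟨htF, ?_⟩
          by_contra hw
          obtain ⟨j, hj⟩ := htm t (not_lt.1 hw)
          apply hne
          rw [predr_guess]
          refine ⟨j, fun i => ?_, ?_⟩
          · by_cases hs : Sat (tm j) (p.1 i.castSucc)
            · left
              rw [heval]
              exact ⟨t, htF, by rw [← hj]; exact hs⟩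
            · exact Or.inr hs
          · rw [hj]
            exact hts
        · rw [mem_filter, mem_filter]
          exact ⟨mem_univ _, mem_univ _, hts⟩
      · right
        have hl' : F.eval (p.1 (Fin.last N)) = false := by simpa using hl
        rw [hl'] at hne
        have hg : (predr N tm).guess p.1 (fun i => F.eval (p.1 i.castSucc)) p.2 = true := by
          simpa using hne
        rw [predr_guess] at hg
        obtain ⟨j, hj1, hj2⟩ := hg
        rw [hE2, mem_biUnion]
        refine ⟨j, mem_univ _, ?_⟩
        rw [mem_filter]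
        refine ⟨mem_univ _, ?_, ?_⟩
        · rw [hA]
          simp only [mem_filter, mem_univ, true_and]
          exact ⟨hl', hj2⟩
        · intro i
          rw [hA]
          simp only [mem_filter, mem_univ, true_and, not_and]
          intro hf
          rcases hj1 i with h | h
          · rw [hf] at h
            cases h
          · exact h
    · intro p _ q _ hpq
      exact Prod.ext hpq (Subsingleton.elim _ _)
  have hE1c : ((E1.card : ℕ) : ℝ) ≤ (s : ℝ) / 2 ^ (w + 1) * 2 ^ ((N + 1) * m) := by
    have h1 : E1.card ≤ ∑ t ∈ F.filter (fun t => w < t.card),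
        (univ.filter (fun z : (Fin m → Bool) => Sat t z)).card * Fintype.card (Fin m → Bool) ^ N := by
      rw [hE1]
      refine Finset.card_biUnion_le.trans (Finset.sum_le_sum fun t _ => le_of_eq ?_)
      convert card_last (N := N) (univ.filter (fun z : Fin m → Bool => Sat t z)) using 3
    have h2 : ∀ t ∈ F.filter (fun t => w < t.card),
        (((univ.filter (fun z : (Fin m → Bool) => Sat t z)).card * Fintype.card (Fin m → Bool) ^ N : ℕ) : ℝ) ≤
          2 ^ ((N + 1) * m) / 2 ^ (w + 1) := by
      intro t ht
      rw [mem_filter] at ht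
      rw [le_div_iff₀ (by positivity)]
      have h3 := card_sat t
      have h4 : (univ.filter (fun z : (Fin m → Bool) => Sat t z)).card * 2 ^ (w + 1) ≤ 2 ^ m :=
        le_trans (Nat.mul_le_mul_left _ (Nat.pow_le_pow_right (by norm_num) ht.2)) h3
      have h5 : (univ.filter (fun z : (Fin m → Bool) => Sat t z)).card * Fintype.card (Fin m → Bool) ^ N * 2 ^ (w + 1) ≤
          2 ^ ((N + 1) * m) := by
        calc (univ.filter (fun z : (Fin m → Bool) => Sat t z)).card * Fintype.card (Fin m → Bool) ^ N * 2 ^ (w + 1)
            = ((univ.filter (fun z : (Fin m → Bool) => Sat t z)).card * 2 ^ (w + 1)) *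
              Fintype.card (Fin m → Bool) ^ N := by ring
          _ ≤ 2 ^ m * Fintype.card (Fin m → Bool) ^ N := Nat.mul_le_mul_right _ h4
          _ = 2 ^ ((N + 1) * m) := by
            rw [hcX, ← pow_mul, ← pow_add]
            congr 1
            ring
      exact_mod_cast h5
    have h6 : ((F.filter (fun t => w < t.card)).card : ℝ) ≤ s := by
      exact_mod_cast (Finset.card_filter_le _ _).trans hF
    calc ((E1.card : ℕ) : ℝ) ≤ ((∑ t ∈ F.filter (fun t => w < t.card),
        (univ.filter (fun z : (Fin m → Bool) => Sat t z)).card * Fintype.card (Fin m → Bool) ^ N : ℕ) : ℝ) := by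
          exact_mod_cast h1
      _ = ∑ t ∈ F.filter (fun t => w < t.card),
        (((univ.filter (fun z : (Fin m → Bool) => Sat t z)).card * Fintype.card (Fin m → Bool) ^ N : ℕ) : ℝ) := by
          push_cast
          rfl
      _ ≤ ∑ _t ∈ F.filter (fun t => w < t.card), (2 ^ ((N + 1) * m) / 2 ^ (w + 1) : ℝ) :=
          Finset.sum_le_sum h2
      _ = ((F.filter (fun t => w < t.card)).card : ℝ) * (2 ^ ((N + 1) * m) / 2 ^ (w + 1)) := by
          rw [Finset.sum_const, nsmul_eq_mul]
      _ ≤ s * (2 ^ ((N + 1) * m) / 2 ^ (w + 1)) :=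
          mul_le_mul_of_nonneg_right h6 (by positivity)
      _ = (s : ℝ) / 2 ^ (w + 1) * 2 ^ ((N + 1) * m) := by ring
  have hE2c : ((E2.card : ℕ) : ℝ) ≤ (τ : ℝ) / (N + 1) * 2 ^ ((N + 1) * m) := by
    have h1 : E2.card ≤ ∑ j : Fin τ, (univ.filter (fun x : Fin (N + 1) → (Fin m → Bool) =>
      x (Fin.last N) ∈ A j ∧ ∀ i : Fin N, x i.castSucc ∉ A j)).card := by
      rw [hE2]
      exact Finset.card_biUnion_le
    have h2 : ∀ j : Fin τ, (((univ.filter (fun x : Fin (N + 1) → (Fin m → Bool) =>
      x (Fin.last N) ∈ A j ∧ ∀ i : Fin N, x i.castSucc ∉ A j)).card : ℕ) : ℝ) ≤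
        2 ^ ((N + 1) * m) / (N + 1) := by
      intro j
      rw [le_div_iff₀ (by positivity)]
      have h3 : (N + 1) * (univ.filter (fun x : Fin (N + 1) → (Fin m → Bool) =>
        x (Fin.last N) ∈ A j ∧ ∀ i : Fin N, x i.castSucc ∉ A j)).card ≤
          Fintype.card (Fin m → Bool) ^ (N + 1) := by
        convert card_one (N := N) (A j) using 4
      rw [hcX, ← pow_mul, mul_comm m (N + 1)] at h3
      have h4 : (((N + 1) * (univ.filter (fun x : Fin (N + 1) → (Fin m → Bool) =>
        x (Fin.last N) ∈ A j ∧ ∀ i : Fin N, x i.castSucc ∉ A j)).card : ℕ) : ℝ) ≤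
          ((2 ^ ((N + 1) * m) : ℕ) : ℝ) := by exact_mod_cast h3
      push_cast at h4
      linarith
    calc ((E2.card : ℕ) : ℝ) ≤ ((∑ j : Fin τ, (univ.filter (fun x : Fin (N + 1) → (Fin m → Bool) =>
        x (Fin.last N) ∈ A j ∧ ∀ i : Fin N, x i.castSucc ∉ A j)).card : ℕ) : ℝ) := by
          exact_mod_cast h1
      _ = ∑ j : Fin τ, (((univ.filter (fun x : Fin (N + 1) → (Fin m → Bool) =>
        x (Fin.last N) ∈ A j ∧ ∀ i : Fin N, x i.castSucc ∉ A j)).card : ℕ) : ℝ) := by
          push_cast
          rfl
      _ ≤ ∑ _j : Fin τ, (2 ^ ((N + 1) * m) / (N + 1) : ℝ) :=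
          Finset.sum_le_sum fun j _ => h2 j
      _ = (τ : ℝ) / (N + 1) * 2 ^ ((N + 1) * m) := by
          rw [Finset.sum_const, card_univ, Fintype.card_fin, nsmul_eq_mul]
          ring
  have htot : G.card + (univ.filter (fun p : (Fin (N + 1) → (Fin m → Bool)) × (Fin 0 → Bool) =>
      ¬ ((predr N tm).guess p.1 (fun i => F.eval (p.1 i.castSucc)) p.2 =
        F.eval (p.1 (Fin.last N))))).card = 2 ^ ((N + 1) * m) := by
    rw [hG, Finset.card_filter_add_card_filter_not, card_univ, Fintype.card_prod]
    simp only [Fintype.card_fun, Fintype.card_fin, Fintype.card_bool, pow_zero, mul_one]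
    rw [← pow_mul, mul_comm m]
  have hU : ((E1 ∪ E2).card : ℝ) ≤ E1.card + E2.card := by
    exact_mod_cast Finset.card_union_le _ _
  have htot' : (G.card : ℝ) + ((univ.filter (fun p : (Fin (N + 1) → (Fin m → Bool)) × (Fin 0 → Bool) =>
      ¬ ((predr N tm).guess p.1 (fun i => F.eval (p.1 i.castSucc)) p.2 =
        F.eval (p.1 (Fin.last N))))).card : ℝ) = 2 ^ ((N + 1) * m) := by exact_mod_cast htot
  have hbad' : ((univ.filter (fun p : (Fin (N + 1) → (Fin m → Bool)) × (Fin 0 → Bool) =>
      ¬ ((predr N tm).guess p.1 (fun i => F.eval (p.1 i.castSucc)) p.2 =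
        F.eval (p.1 (Fin.last N))))).card : ℝ) ≤ ((E1 ∪ E2).card : ℝ) := by exact_mod_cast hbad
  have hsucc : (predr N tm).success F.eval = (G.card : ℝ) / 2 ^ ((N + 1) * m) := by
    unfold Predictor.success
    rw [add_zero]
  rw [hsucc, le_div_iff₀ (by positivity)]
  nlinarith [hE1c, hE2c, hU, htot', hbad']

end Pool.Agent.U571.PS
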